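import Pool.Agent.BED.Stmts

/-!
# Squad BED (MP_be01ff_an), row CPV: the constants
-/

namespace Pool.Agent.BED.H12

open Pool.Agent.BE01

theorem sin_pow_step (n : ℕ) :
    ∫ s in (0 : ℝ)..(2 * Real.pi), Real.sin s ^ (n + 2) =
      ((n : ℝ) + 1) / ((n : ℝ) + 2) * ∫ s in (0 : ℝ)..(2 * Real.pi), Real.sin s ^ n := by
  rw [integral_sin_pow]
  simp only [Real.sin_zero, Real.sin_two_pi]
  rw [zero_pow (Nat.succ_ne_zero n)]
  ring

theorem cpv : CpvStmt := by
  have h0 : ∫ s in (0 : ℝ)..(2 * Real.pi), Real.sin s ^ 0 = 2 * Real.pi := by simp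
  have h2 := sin_pow_step 0
  have h4 := sin_pow_step 2
  have h6 := sin_pow_step 4
  have h8 := sin_pow_step 6
  rw [h0] at h2
  norm_num only at h2 h4 h6 h8
  have hpi := Real.pi_ne_zero
  refine ⟨?_, ?_, ?_⟩
  · unfold cp
    norm_num only
    rw [h4, h2]
    field_simp
    try norm_num
  · unfold cp
    norm_num only
    rw [h6, h4, h2]
    field_simp
    try norm_num
  · unfold cp
    norm_num only
    rw [h8, h6, h4, h2]
    field_simp
    try norm_num

end Pool.Agent.BED.H12
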